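import Pool.Agent.H47.MC.Defs
import Pool.Agent.H10.MB.Box

set_option linter.style.longLine false

/-! MB2, second version, rows T' and U': near a centre of period `n` the map is renormalizable
with period `n` and `n` is a good time. -/

namespace Pool.Agent.H98.MC

open Finset Metric
open Pool.Agent.H51.IR Pool.Agent.H98.MB Pool.Agent.H47.MC Pool.Agent.H10.MB

variable {c c' : ℂ} {n : ℕ}

theorem centre_A_ne (hc : Centre c n) {j : ℕ} (hj : j ≤ n) : A c j ≠ 0 := by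
  unfold A
  rw [Finset.prod_ne_zero_iff]
  intro i hi
  exact mul_ne_zero two_ne_zero (hc.ne i (Finset.Ico_subset_Ico_right hj hi))

theorem B_zero (c' : ℂ) (i : ℕ) : Pool.Agent.H47.MC.B c' 0 i = A c' i := rfl

theorem Dx_zero (c' : ℂ) (j : ℕ) : Dx c' 0 j = Dp c' j := by
  induction j with
  | zero => rfl
  | succ j ih =>
    change 2 * (quad c')^[j] 0 * Dx c' 0 j + 1 = 2 * crit c' j * Dp c' j + 1
    rw [ih]; rfl

theorem norm_ge_of_sub {u v : ℂ} {s : ℝ} (h : ‖u - v‖ ≤ s * ‖v‖) : (1 - s) * ‖v‖ ≤ ‖u‖ := by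
  have h6 := norm_le_norm_add_norm_sub u v
  linarith

theorem norm_le_of_sub {u v : ℂ} {s : ℝ} (h : ‖u - v‖ ≤ s * ‖v‖) : ‖u‖ ≤ (1 + s) * ‖v‖ := by
  have h6 := norm_le_norm_add_norm_sub' u v
  linarith

/-- row T' -/
theorem isRenorm_of_near (hc : Centre c n) (hn : 2 ≤ n)
    (hd : ‖A c n‖ * ‖Dp c n‖ * ‖c' - c‖ ≤ 2.5)
    (hret : ∀ m, ‖A c n‖ * ‖crit c' (m * n)‖ ≤ 2.5)
    (hnear : ∀ x, ‖A c n‖ * ‖x‖ ≤ 2.7 → Near c n c' x) : IsRenorm n c' := by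
  have hA : A c n ≠ 0 := centre_A_ne hc le_rfl
  have ha : 0 < ‖A c n‖ := norm_pos_iff.mpr hA
  set a := ‖A c n‖ with hadef
  have hr : 0 < 2.7 / a := by positivity
  have hR : 0 < 2.8 / a := by positivity
  have hmemL : ∀ z : ℂ, z ∈ closedBall (0 : ℂ) (2.7 / a) → a * ‖z‖ ≤ 2.7 := by
    intro z hz
    rw [mem_closedBall, dist_zero_right, le_div_iff₀ ha] at hz
    linarith
  refine isRenorm_of_box hn (L := closedBall 0 (2.7 / a)) (isCompact_closedBall _ _) ?_ ?_ ?_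
  · intro z hz
    simpa using hz
  · refine ⟨ball 0 (2.8 / a), isOpen_ball,
      ((convex_ball _ _).isConnected (nonempty_ball.mpr hR)), isConnected_compl_ball hR,
      isBounded_ball, ?_, ?_, ?_⟩
    · refine closedBall_subset_ball ?_
      gcongr
      norm_num
    · intro z hz hcl
      rw [frontier_closedBall _ hr.ne', mem_sphere, dist_zero_right] at hz
      have haz : a * ‖z‖ = 2.7 := by
        rw [hz]; field_simp
      have hN := (hnear z haz.le).value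
      have hcl' := closure_ball_subset_closedBall hcl
      rw [mem_closedBall, dist_zero_right, le_div_iff₀ ha] at hcl'
      have h1 : ‖A c n * z‖ = 2.7 := by rw [norm_mul, ← hadef, haz]
      have h2 : ‖A c n * Dp c n * (c' - c)‖ ≤ 2.5 := by
        rw [norm_mul, norm_mul]; exact hd
      have h3 : ‖(A c n * z) ^ 2‖ = 7.29 := by rw [norm_pow, h1]; norm_num
      have h4 : ‖A c n * (quad c')^[n] z‖ ≤ 2.8 := by
        rw [norm_mul, ← hadef]; linarith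
      rw [h1] at hN
      have h5 : ‖(A c n * z) ^ 2‖ ≤ ‖A c n * (quad c')^[n] z‖
          + ‖A c n * (quad c')^[n] z - (A c n * Dp c n * (c' - c) + (A c n * z) ^ 2)‖
          + ‖A c n * Dp c n * (c' - c)‖ := by
        calc ‖(A c n * z) ^ 2‖ = ‖A c n * (quad c')^[n] z
              - (A c n * (quad c')^[n] z - (A c n * Dp c n * (c' - c) + (A c n * z) ^ 2))
              - A c n * Dp c n * (c' - c)‖ := by congr 1; ring
          _ ≤ ‖A c n * (quad c')^[n] z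
              - (A c n * (quad c')^[n] z - (A c n * Dp c n * (c' - c) + (A c n * z) ^ 2))‖
              + ‖A c n * Dp c n * (c' - c)‖ := norm_sub_le _ _
          _ ≤ _ := by
            gcongr
            exact norm_sub_le _ _
      rw [h3] at h5
      norm_num at hN h5 h2 h4 ⊢
      linarith
    · rintro ⟨q1, q2⟩ hq j hj h0
      have hj' : j ∈ Ico 1 n := hj
      have h1 := (hnear q1 (hmemL q1 hq.1)).orbit j hj'
      have h2 := (hnear q2 (hmemL q2 hq.2)).orbit j hj'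
      have h3 := norm_pos_iff.mpr (hc.ne j hj')
      have h0' : (quad c')^[j] q1 + (quad c')^[j] q2 = 0 := h0
      have h4 : ‖(2 : ℂ) * crit c j‖ ≤ ‖(quad c')^[j] q1 - crit c j‖ + ‖(quad c')^[j] q2 - crit c j‖ := by
        calc ‖(2 : ℂ) * crit c j‖ = ‖-(2 * crit c j)‖ := (norm_neg _).symm
          _ = ‖((quad c')^[j] q1 - crit c j) + ((quad c')^[j] q2 - crit c j)‖ := by
            congr 1
            linear_combination -h0'
          _ ≤ _ := norm_add_le _ _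
      rw [norm_mul, Complex.norm_ofNat] at h4
      norm_num at h1 h2 h4
      linarith
  · refine ⟨?_, ?_⟩
    · rw [interior_closedBall _ hr.ne']
      exact mem_ball_self hr
    · intro m _
      rw [interior_closedBall _ hr.ne', mem_ball, dist_zero_right, lt_div_iff₀ ha]
      have h1 := hret m
      have h2 : crit c' (m * n) = (quad c')^[m * n] 0 := rfl
      rw [h2] at h1
      norm_num at h1 ⊢
      linarith

/-- row U' -/
theorem good_of_centre (hc : Centre c n) (hn : 2 ≤ n) (h : Near c n c' 0)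
    (hz : ‖A c n‖ * ‖crit c' n‖ ≤ 2.5) : Good c' n ∧ ‖A c' n‖ * ‖crit c' n‖ ≤ 4 := by
  have hn1 := hc.one_le
  have hA : 0 < ‖A c n‖ := norm_pos_iff.2 (centre_A_ne hc le_rfl)
  have hDp : 0 < ‖Dp c n‖ := norm_pos_iff.2 hc.dp
  have hAj : ∀ j, 1 ≤ j → j ≤ n → ‖A c' j - A c j‖ ≤ 0.005 * ‖A c j‖ := fun j h1 h2 => by
    have := h.prod j (Finset.mem_Icc.2 ⟨h1, h2⟩)
    rwa [B_zero] at this
  have hDj : ∀ j, 1 ≤ j → j ≤ n → ‖Dp c' j - Dp c j‖ ≤ 0.005 * ‖A c j‖ * (‖Dp c n‖ / ‖A c n‖) :=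
    fun j h1 h2 => by
    have := h.par j (Finset.mem_Icc.2 ⟨h1, h2⟩)
    rw [Dx_zero] at this
    rw [← mul_div_assoc, le_div_iff₀ hA]
    exact this
  have hzj : ∀ j ∈ Ico 1 n, ‖crit c' j - crit c j‖ ≤ 0.005 * ‖crit c j‖ := h.orbit
  have hD : ‖Dp c' n - Dp c n‖ ≤ 0.005 * ‖Dp c n‖ := by
    refine (hDj n hn1 le_rfl).trans (le_of_eq ?_)
    field_simp
  have hAn' := norm_le_of_sub (hAj n hn1 le_rfl)
  have hAn := norm_ge_of_sub (hAj n hn1 le_rfl)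
  have hDn := norm_ge_of_sub hD
  set k : ℝ := ‖Dp c n‖ / ‖A c n‖ with hk
  have hk0 : 0 ≤ k := by positivity
  -- the two sums
  have hPt : ∀ j ∈ Ico 1 n, ‖A c' j‖ / ‖crit c' j‖ ≤ 1.011 * (‖A c j‖ / ‖crit c j‖) := by
    intro j hj
    have hj' := Finset.mem_Ico.1 hj
    have h1 := norm_le_of_sub (hAj j hj'.1 hj'.2.le)
    have h2 := norm_ge_of_sub (hzj j hj)
    have hpos : 0 < ‖crit c j‖ := norm_pos_iff.2 (hc.ne j hj)
    have h3 : 0 < ‖crit c' j‖ := lt_of_lt_of_le (by positivity) h2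
    rw [← mul_div_assoc, div_le_div_iff₀ h3 hpos]
    have h4 : 0 ≤ ‖A c j‖ := norm_nonneg _
    calc ‖A c' j‖ * ‖crit c j‖ ≤ (1 + 0.005) * ‖A c j‖ * ‖crit c j‖ := by gcongr
      _ ≤ 1.011 * ‖A c j‖ * ((1 - 0.005) * ‖crit c j‖) := by
        have : 0 ≤ ‖A c j‖ * ‖crit c j‖ := by positivity
        nlinarith
      _ ≤ 1.011 * ‖A c j‖ * ‖crit c' j‖ := by gcongr
  have hQt : ∀ j ∈ Ico 1 n, ‖Dp c' j‖ ^ 2 / (‖crit c' j‖ * ‖A c' j‖) ≤
      1.011 * (2 * (‖Dp c j‖ ^ 2 / (‖crit c j‖ * ‖A c j‖))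
        + 0.0001 * k ^ 2 * (‖A c j‖ / ‖crit c j‖)) := by
    intro j hj
    have hj' := Finset.mem_Ico.1 hj
    have hpos : 0 < ‖crit c j‖ := norm_pos_iff.2 (hc.ne j hj)
    have hposA : 0 < ‖A c j‖ := norm_pos_iff.2 (centre_A_ne hc hj'.2.le)
    have h1 := norm_ge_of_sub (hAj j hj'.1 hj'.2.le)
    have h2 := norm_ge_of_sub (hzj j hj)
    have h3 : 0 < ‖crit c' j‖ := lt_of_lt_of_le (by positivity) h2
    have h4 : 0 < ‖A c' j‖ := lt_of_lt_of_le (by positivity) h1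
    have h5 : ‖Dp c' j‖ ≤ ‖Dp c j‖ + 0.005 * ‖A c j‖ * k := by
      have h6 := norm_le_norm_add_norm_sub' (Dp c' j) (Dp c j)
      have h7 := hDj j hj'.1 hj'.2.le
      linarith
    have h6 : ‖Dp c' j‖ ^ 2 ≤ 2 * ‖Dp c j‖ ^ 2 + 0.0001 * k ^ 2 * ‖A c j‖ ^ 2 := by
      have h7 : ‖Dp c' j‖ ^ 2 ≤ (‖Dp c j‖ + 0.005 * ‖A c j‖ * k) ^ 2 := by gcongr
      have h8 : 0 ≤ (‖Dp c j‖ - 0.005 * ‖A c j‖ * k) ^ 2 := sq_nonneg _
      have h9 : 0 ≤ k ^ 2 * ‖A c j‖ ^ 2 := by positivity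
      nlinarith
    have h7 : ((1 - 0.005) * ‖crit c j‖) * ((1 - 0.005) * ‖A c j‖) ≤ ‖crit c' j‖ * ‖A c' j‖ := by
      gcongr
    have h8 : 2 * (‖Dp c j‖ ^ 2 / (‖crit c j‖ * ‖A c j‖))
        + 0.0001 * k ^ 2 * (‖A c j‖ / ‖crit c j‖)
        = (2 * ‖Dp c j‖ ^ 2 + 0.0001 * k ^ 2 * ‖A c j‖ ^ 2) / (‖crit c j‖ * ‖A c j‖) := by
      field_simp
    rw [h8, ← mul_div_assoc, div_le_div_iff₀ (by positivity) (by positivity)]
    set N := 2 * ‖Dp c j‖ ^ 2 + 0.0001 * k ^ 2 * ‖A c j‖ ^ 2 with hN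
    have hN0 : 0 ≤ N := by positivity
    calc ‖Dp c' j‖ ^ 2 * (‖crit c j‖ * ‖A c j‖) ≤ N * (‖crit c j‖ * ‖A c j‖) := by gcongr
      _ ≤ 1.011 * N * (((1 - 0.005) * ‖crit c j‖) * ((1 - 0.005) * ‖A c j‖)) := by
        have : 0 ≤ N * (‖crit c j‖ * ‖A c j‖) := by positivity
        nlinarith
      _ ≤ 1.011 * N * (‖crit c' j‖ * ‖A c' j‖) := by gcongr
  have hP0 : 0 ≤ P c n := Finset.sum_nonneg fun i _ => by positivity
  have hQ0 : 0 ≤ Q c n := Finset.sum_nonneg fun i _ => by positivity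
  have hP' : P c' n ≤ 1.011 * P c n := by
    unfold P
    rw [mul_sum]
    exact Finset.sum_le_sum hPt
  have hQ' : Q c' n ≤ 1.011 * (2 * Q c n + 0.0001 * k ^ 2 * P c n) := by
    unfold P Q
    rw [mul_sum, mul_sum, ← sum_add_distrib, mul_sum]
    exact Finset.sum_le_sum hQt
  have hP0' : 0 ≤ P c' n := Finset.sum_nonneg fun i _ => by positivity
  have hQ0' : 0 ≤ Q c' n := Finset.sum_nonneg fun i _ => by positivity
  have hsP := hc.smallP
  have hsQ := hc.smallQ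
  have hkP : k ^ 2 * P c n ≤ ‖Dp c n‖ ^ 2 / 10 ^ 4 := by
    have h1 : P c n ≤ ‖A c n‖ ^ 2 / 10 ^ 4 := by
      rw [le_div_iff₀ (by norm_num)]; linarith
    calc k ^ 2 * P c n ≤ k ^ 2 * (‖A c n‖ ^ 2 / 10 ^ 4) := by gcongr
      _ = ‖Dp c n‖ ^ 2 / 10 ^ 4 := by rw [hk]; field_simp
  have hzz : ‖A c' n‖ * ‖crit c' n‖ ≤ 2.5125 := by
    calc ‖A c' n‖ * ‖crit c' n‖ ≤ (1 + 0.005) * ‖A c n‖ * ‖crit c' n‖ := by gcongr
      _ = (1 + 0.005) * (‖A c n‖ * ‖crit c' n‖) := by ring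
      _ ≤ (1 + 0.005) * 2.5 := by gcongr
      _ ≤ 2.5125 := by norm_num
  have hmax : max 1 (‖A c' n‖ * ‖crit c' n‖) ≤ 2.5125 := max_le (by norm_num) hzz
  have hD2 : 0.99 * ‖Dp c n‖ ^ 2 ≤ ‖Dp c' n‖ ^ 2 := by
    have h5 : ((1 - 0.005) * ‖Dp c n‖) ^ 2 ≤ ‖Dp c' n‖ ^ 2 := by gcongr
    nlinarith [sq_nonneg ‖Dp c n‖]
  have hA2 : 0.99 * ‖A c n‖ ^ 2 ≤ ‖A c' n‖ ^ 2 := by
    have h5 : ((1 - 0.005) * ‖A c n‖) ^ 2 ≤ ‖A c' n‖ ^ 2 := by gcongr
    nlinarith [sq_nonneg ‖A c n‖]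
  refine ⟨⟨hn, ?_, ?_, ?_, ?_⟩, hzz.trans (by norm_num)⟩
  · intro j hj
    have h2 := norm_ge_of_sub (hzj j hj)
    have hpos : 0 < ‖crit c j‖ := norm_pos_iff.2 (hc.ne j hj)
    exact norm_pos_iff.1 (lt_of_lt_of_le (by positivity) h2)
  · exact norm_pos_iff.1 (lt_of_lt_of_le (by positivity) hDn)
  · have h1 : max 1 (‖A c' n‖ * ‖crit c' n‖) * Q c' n
        ≤ 2.5125 * (1.011 * (2 * Q c n + 0.0001 * k ^ 2 * P c n)) := by gcongr
    have h2 : 0 ≤ ‖Dp c n‖ ^ 2 := by positivity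
    nlinarith
  · have h1 : max 1 (‖A c' n‖ * ‖crit c' n‖) * P c' n
        ≤ 2.5125 * (1.011 * P c n) := by gcongr
    have h2 : 0 ≤ ‖A c n‖ ^ 2 := by positivity
    nlinarith

end Pool.Agent.H98.MC
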